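import Pool.Agent.Helper20.NP.Stmts

set_option autoImplicit false

namespace Pool.Agent.Helper20.NP

open Pool.Agent.Helper21.DN

universe u

theorem st_UPP (hUBR : ST_UBR.{u}) (hDIF0 : ST_DIF0.{u}) (hRAM : ST_RAM.{u}) (hCOND : ST_COND.{u}) :
    ST_UPP.{u} := by
  intro p _ hp2 k _ _ _ P _ _ hP hnt
  rintro c ⟨L, _, _, hfd, hgal, ⟨e⟩, rfl⟩
  have hpG : IsPGroup p (L ≃ₐ[LaurentSeries k] L) := hP.of_equiv e.symm
  have hntG : Nontrivial (L ≃ₐ[LaurentSeries k] L) := e.toEquiv.nontrivial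
  obtain ⟨v, hv, hR⟩ := hRAM k L
  obtain ⟨D, hD⟩ := hDIF0 p k L v hv
  have hc := hCOND p k L v hv hR hpG hntG
  have hRG : RG p (L ≃ₐ[LaurentSeries k] L) (fun σ : L ≃ₐ[LaurentSeries k] L => s v σ) :=
    ⟨k, LaurentSeries k, L, inferInstance, inferInstance, inferInstance, inferInstance, inferInstance,
      inferInstance, hfd, hgal, κ0 k, v, D, 1, MulEquiv.refl _, hR, hpG, hD, fun σ _ => rfl⟩
  obtain ⟨z0, hz1, hz2, hz3⟩ := hUBR p hp2 (L ≃ₐ[LaurentSeries k] L) _ hRG hntG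
  set A : ℕ := S1 (fun σ : L ≃ₐ[LaurentSeries k] L => s v σ) +
    x0 (fun σ : L ≃ₐ[LaurentSeries k] L => s v σ) with hA
  have hz0 : e z0 ∈ Subgroup.center P := by
    rw [Subgroup.mem_center_iff] at hz1 ⊢
    intro g
    obtain ⟨g0, rfl⟩ := e.surjective g
    rw [← map_mul, ← map_mul, hz1 g0]
  have hzo : orderOf (e z0) = p := by
    rw [MulEquiv.orderOf_eq, hz2]
  have hcard : Nat.card P = Fintype.card (L ≃ₐ[LaurentSeries k] L) := by
    rw [← Nat.card_eq_fintype_card]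
    exact (Nat.card_congr e.toEquiv).symm
  refine ⟨e z0, hz0, hzo, ?_⟩
  intro H R hRH hnorm hzR hcomm
  have h2 : Nat.card (H.comap e.toMonoidHom) ∣ A := by
    apply hz3 (H.comap e.toMonoidHom) (R.comap e.toMonoidHom)
    · exact Subgroup.comap_mono hRH
    · constructor
      intro n hn g
      have hn' : e n.1 ∈ R := hn
      have hnH : e n.1 ∈ H := n.2
      have hgH : e g.1 ∈ H := g.2
      have hq : (⟨e n.1, hnH⟩ : H) ∈ R.subgroupOf H := hn'
      have h1 := hnorm.conj_mem ⟨e n.1, hnH⟩ hq ⟨e g.1, hgH⟩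
      have h2 : e g.1 * e n.1 * (e g.1)⁻¹ ∈ R := h1
      show e (g.1 * n.1 * g.1⁻¹) ∈ R
      rw [map_mul, map_mul, map_inv]
      exact h2
    · intro h
      exact hzR h
    · intro x hx hxp y hy
      have hx' : e x ∈ H := hx
      have hy' : e y ∈ H := hy
      have hxp' : e x ^ p ∈ R := by
        have : e (x ^ p) ∈ R := hxp
        rwa [map_pow] at this
      have := hcomm (e x) hx' hxp' (e y) hy'
      show e (x * y * x⁻¹ * y⁻¹) ∈ R
      simpa using this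
  have h3 : Nat.card (H.comap e.toMonoidHom) = Nat.card H := by
    refine Nat.card_congr ?_
    exact (e.toEquiv.subtypeEquiv (fun a => Iff.rfl))
  rw [h3] at h2
  obtain ⟨b, hb⟩ := h2
  refine ⟨b, ?_⟩
  have h4 : (A : ℝ) = (Nat.card H : ℝ) * (b : ℝ) := by exact_mod_cast hb
  have h5 : (Nat.card H : ℝ) * (H.index : ℝ) = (Fintype.card (L ≃ₐ[LaurentSeries k] L) : ℝ) := by
    rw [← hcard]
    exact_mod_cast H.card_mul_index
  have hpc : (0 : ℝ) < (Nat.card H : ℝ) := by exact_mod_cast Nat.card_pos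
  have hpi : (0 : ℝ) < (H.index : ℝ) := by
    exact_mod_cast Nat.pos_of_ne_zero Subgroup.FiniteIndex.index_ne_zero
  rw [hc]
  unfold Pool.Agent.Helper21.DN.cond
  rw [← h5]
  have h6 : ((S1 (fun σ : L ≃ₐ[LaurentSeries k] L => s v σ) : ℝ) +
      (x0 (fun σ : L ≃ₐ[LaurentSeries k] L => s v σ) : ℝ)) = (Nat.card H : ℝ) * (b : ℝ) := by
    rw [← h4, hA]
    push_cast
    ring
  rw [h6]
  push_cast
  field_simp

end Pool.Agent.Helper20.NP
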